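import Mathlib

/-! The integer core of the injectivity proof. -/

set_option autoImplicit false

namespace Pool.Agent.MP_adc87d_lc.BI

/-- homogeneous geometric sum -/
def ph (l : ℕ) (a b : ℤ) : ℤ := ∑ i ∈ Finset.range l, a ^ i * b ^ (l - 1 - i)

theorem ph_mul (l : ℕ) (a b : ℤ) : ph l a b * (a - b) = a ^ l - b ^ l :=
  geom_sum₂_mul a b l

theorem ph_vis (l : ℕ) (hl : l.Prime) (u v : ℤ) (p : ℕ) (hp : p.Prime)
    (h : (p : ℤ) ∣ ph l u v) (hv : ¬ (p : ℤ) ∣ v) : p % l ≤ 1 := by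
  have := Fact.mk hp
  have := Fact.mk hl
  have hv' : (v : ZMod p) ≠ 0 := by rwa [Ne, ZMod.intCast_zmod_eq_zero_iff_dvd]
  have h0 : ((ph l u v : ℤ) : ZMod p) = 0 := (ZMod.intCast_zmod_eq_zero_iff_dvd _ _).2 h
  by_cases e : (u : ZMod p) = v
  · have : ((ph l u v : ℤ) : ZMod p) = l * (v : ZMod p) ^ (l - 1) := by
      unfold ph
      push_cast
      rw [e, Finset.sum_congr rfl (g := fun _ => (v : ZMod p) ^ (l - 1))]
      · simp
      · intro i hi
        rw [← pow_add]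
        congr 1
        have := Finset.mem_range.1 hi
        omega
    rw [h0] at this
    have hl0 : (l : ZMod p) = 0 :=
      (mul_eq_zero.1 this.symm).resolve_right (pow_ne_zero _ hv')
    have : p = l := (Nat.prime_dvd_prime_iff_eq hp hl).1 ((ZMod.natCast_eq_zero_iff _ _).1 hl0)
    rw [this, Nat.mod_self]
    exact Nat.zero_le _
  · have e1 : (u : ZMod p) ^ l = (v : ZMod p) ^ l := by
      have := congrArg (fun z : ℤ => (z : ZMod p)) (ph_mul l u v)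
      simp only [Int.cast_mul, h0, zero_mul] at this
      push_cast at this
      exact sub_eq_zero.1 this.symm
    have ht : ((u : ZMod p) / v) ^ l = 1 := by
      rw [div_pow, e1, div_self (pow_ne_zero _ hv')]
    have ht1 : (u : ZMod p) / v ≠ 1 := fun hh => e ((div_eq_one_iff_eq hv').1 hh)
    have ho : orderOf ((u : ZMod p) / v) = l := orderOf_eq_prime ht ht1
    have ht0 : (u : ZMod p) / v ≠ 0 := by
      intro hh
      rw [hh, zero_pow hl.ne_zero] at ht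
      exact zero_ne_one ht
    have hd := ZMod.orderOf_dvd_card_sub_one ht0
    rw [ho] at hd
    obtain ⟨c, hc⟩ := hd
    have h2 := hp.two_le
    have : p = 1 + l * c := by omega
    rw [this, Nat.add_mul_mod_self_left]
    exact Nat.mod_le _ _

theorem ph_ge_left (D : ℕ) (a b : ℤ) (ha : 0 ≤ a) (hb : 0 ≤ b) : a ^ D ≤ ph (D + 1) a b := by
  unfold ph
  have := Finset.single_le_sum (s := Finset.range (D + 1))
    (f := fun i => a ^ i * b ^ (D + 1 - 1 - i)) (fun i _ => by positivity)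
    (Finset.self_mem_range_succ D)
  simpa using this

theorem ph_ge_right (D : ℕ) (a b : ℤ) (ha : 0 ≤ a) (hb : 0 ≤ b) : b ^ D ≤ ph (D + 1) a b := by
  unfold ph
  have := Finset.single_le_sum (s := Finset.range (D + 1))
    (f := fun i => a ^ i * b ^ (D + 1 - 1 - i)) (fun i _ => by positivity)
    (Finset.mem_range.2 (Nat.succ_pos D))
  simpa using this

theorem ph_lower (D : ℕ) (hD : Even D) (a b : ℤ) (hb : 0 < b) :
    (max |a| b) ^ D ≤ 2 * ph (D + 1) a b := by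
  rcases le_or_gt 0 a with ha | ha
  · have h1 := ph_ge_left D a b ha hb.le
    have h2 := ph_ge_right D a b ha hb.le
    have h3 : 0 < b ^ D := pow_pos hb D
    rw [abs_of_nonneg ha]
    rcases max_choice a b with e | e <;> rw [e] <;> linarith
  · have e := ph_mul (D + 1) a b
    have ho : Odd (D + 1) := hD.add_one
    rw [abs_of_neg ha]
    have e2 : ph (D + 1) a b * (-a + b) = (-a) ^ (D + 1) + b ^ (D + 1) := by
      rw [ho.neg_pow]
      linarith
    have hA : 0 < (-a) ^ (D + 1) := pow_pos (by linarith) _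
    have hB : 0 < b ^ (D + 1) := pow_pos hb _
    have hpos : 0 < ph (D + 1) a b :=
      (mul_pos_iff_of_pos_right (by linarith : 0 < -a + b)).1 (by rw [e2]; linarith)
    set M := max (-a) b with hM
    have hM0 : 0 < M := lt_of_lt_of_le hb (le_max_right _ _)
    have hM1 : -a + b ≤ 2 * M := by
      have := le_max_left (-a) b
      have := le_max_right (-a) b
      linarith
    have hM2 : M ^ (D + 1) ≤ (-a) ^ (D + 1) + b ^ (D + 1) := by
      rcases max_choice (-a) b with e | e <;> rw [hM, e] <;> linarith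
    have : M ^ D * M ≤ (2 * ph (D + 1) a b) * M := by
      rw [← pow_succ]
      nlinarith
    exact le_of_mul_le_mul_right this hM0

theorem cop_of_primes {a b : ℤ} (h : ∀ p : ℕ, p.Prime → (p : ℤ) ∣ a → ¬ (p : ℤ) ∣ b) :
    IsCoprime a b := by
  rw [Int.isCoprime_iff_gcd_eq_one]
  by_contra hne
  obtain ⟨p, hp, hd⟩ := Nat.exists_prime_and_dvd hne
  have hd' : (p : ℤ) ∣ (Int.gcd a b : ℤ) := Int.natCast_dvd_natCast.2 hd
  exact h p hp (hd'.trans (Int.gcd_dvd_left a b)) (hd'.trans (Int.gcd_dvd_right a b))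

theorem not_dvd_of_cop {a b : ℤ} (h : IsCoprime a b) (p : ℕ) (hp : p.Prime) (hb : (p : ℤ) ∣ b) :
    ¬ (p : ℤ) ∣ a := fun ha =>
  (Nat.prime_iff_prime_int.1 hp).not_isUnit (h.isUnit_of_dvd' ha hb)

theorem br_bound (D : ℕ) (u s X Y w : ℤ) (hs : 0 < s) (hX : |X| ≤ w) (hY : |Y| ≤ w)
    (hw : s ≤ w) (hu : 3 * w ^ D ≤ u) : |u * X + s ^ D * Y| ≤ 2 * u * w := by
  have h1 : s ^ D ≤ w ^ D := pow_le_pow_left₀ hs.le hw D
  have h2 : 0 < s ^ D := pow_pos hs D
  have hu0 : 0 ≤ u := by linarith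
  have hw0 : 0 ≤ w := by linarith
  calc |u * X + s ^ D * Y| ≤ |u * X| + |s ^ D * Y| := abs_add_le _ _
    _ = u * |X| + s ^ D * |Y| := by
        rw [abs_mul, abs_mul, abs_of_nonneg hu0, abs_of_pos h2]
    _ ≤ u * w + u * w := by
        have : s ^ D ≤ u := by linarith
        gcongr
    _ = 2 * u * w := by ring

theorem nolt (D k : ℕ) (hl : (D + 1).Prime) (hD : 12 ≤ D) (hk : D * D = k + 1)
    (u u' h m B B' : ℤ) (hh : 0 < h) (hm : 0 < m)
    (im : ∀ p : ℕ, p.Prime → (p : ℤ) ∣ m → 2 ≤ p % (D + 1))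
    (cu' : IsCoprime u' m) (hu' : 0 < u') (hB : |B| ≤ 2 * u ^ 2) (hB' : |B'| ≤ 2 * u' ^ 2)
    (h3 : 9 * h ^ (3 * D) ≤ u * u')
    (e : u ^ (D + 1) + (h * m) ^ k * B = u' ^ (D + 1) + (h * m) ^ k * B') : ¬ u' < u := by
  intro hlt
  have hu : 0 < u := hu'.trans hlt
  have e1 : ph (D + 1) u u' * (u - u') = h ^ k * m ^ k * (B' - B) := by
    rw [ph_mul, ← mul_pow]
    linarith
  have hc : IsCoprime m (ph (D + 1) u u') := cop_of_primes fun p hp hpm hd => by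
    have := ph_vis (D + 1) hl u u' p hp hd (not_dvd_of_cop cu' p hp hpm)
    have := im p hp hpm
    omega
  have hd : m ^ k ∣ u - u' :=
    (hc.pow_left (m := k)).dvd_of_dvd_mul_left (e1 ▸ ⟨h ^ k * (B' - B), by ring⟩)
  have hmk : m ^ k ≤ u := (Int.le_of_dvd (by linarith) hd).trans (by linarith)
  have hph := ph_ge_left D u u' hu.le hu'.le
  have huD : 0 < u ^ D := pow_pos hu D
  have hBB : B' - B ≤ 4 * u ^ 2 := by
    have := (abs_le.1 hB).1
    have := (abs_le.1 hB').2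
    have : u' ^ 2 ≤ u ^ 2 := pow_le_pow_left₀ hu'.le hlt.le 2
    linarith
  have hk0 : 0 < h ^ k := pow_pos hh k
  have hmk0 : 0 < m ^ k := pow_pos hm k
  have a1 : u ^ D ≤ h ^ k * u * (4 * u ^ 2) := by
    calc u ^ D ≤ ph (D + 1) u u' * (u - u') := by nlinarith
      _ = h ^ k * m ^ k * (B' - B) := e1
      _ ≤ h ^ k * m ^ k * (4 * u ^ 2) := by gcongr
      _ ≤ h ^ k * u * (4 * u ^ 2) := by gcongr
  have a2 : 9 * h ^ (3 * D) ≤ u ^ 2 := h3.trans (by nlinarith)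
  have a3 : (9 * h ^ (3 * D)) ^ D ≤ (u ^ 2) ^ D := pow_le_pow_left₀ (by positivity) a2 D
  have a4 : (h ^ k) ^ 3 ≤ (h ^ (3 * D)) ^ D := by
    rw [← pow_mul, ← pow_mul]
    exact pow_le_pow_right₀ hh (by nlinarith)
  have a5 : (u ^ D) ^ 3 ≤ (h ^ k * u * (4 * u ^ 2)) ^ 3 := pow_le_pow_left₀ huD.le a1 3
  have a6 : (81 : ℤ) ≤ 9 ^ D := by
    calc (81 : ℤ) = 9 ^ 2 := by norm_num
      _ ≤ 9 ^ D := pow_le_pow_right₀ (by norm_num) (by omega)
  have a7 : u ^ 9 ≤ u ^ D := pow_le_pow_right₀ hu (by omega)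
  have a8 : 81 * (h ^ k) ^ 3 ≤ (u ^ D) ^ 2 := by
    calc 81 * (h ^ k) ^ 3 ≤ 9 ^ D * (h ^ (3 * D)) ^ D := by gcongr
      _ = (9 * h ^ (3 * D)) ^ D := (mul_pow _ _ _).symm
      _ ≤ (u ^ 2) ^ D := a3
      _ = (u ^ D) ^ 2 := by rw [← pow_mul, ← pow_mul, mul_comm]
  have a9 : 81 * (u ^ D) ^ 3 ≤ 64 * (u ^ D) ^ 3 := by
    calc 81 * (u ^ D) ^ 3 ≤ 81 * (h ^ k * u * (4 * u ^ 2)) ^ 3 := by gcongr
      _ = 64 * ((81 * (h ^ k) ^ 3) * u ^ 9) := by ring
      _ ≤ 64 * ((u ^ D) ^ 2 * u ^ D) := by gcongr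
      _ = 64 * (u ^ D) ^ 3 := by ring
  have : 0 < (u ^ D) ^ 3 := by positivity
  linarith

theorem core (D k : ℕ) (hl : (D + 1).Prime) (hD : 12 ≤ D) (hk : D * D = k + 1)
    (u u' h m m' X Y X' Y' w w' : ℤ) (hh : 0 < h) (hm : 0 < m) (hm' : 0 < m')
    (im : ∀ p : ℕ, p.Prime → (p : ℤ) ∣ m → 2 ≤ p % (D + 1))
    (cu : IsCoprime u m) (cu' : IsCoprime u' m')
    (hX : |X| ≤ w) (hY : |Y| ≤ w) (hw : h * m ≤ w) (hu : 3 * w ^ D ≤ u)
    (hX' : |X'| ≤ w') (hY' : |Y'| ≤ w') (hw' : h * m' ≤ w') (hu' : 3 * w' ^ D ≤ u')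
    (h3 : 9 * h ^ (3 * D) ≤ u * u')
    (e : (u ^ (D + 1) + (h * m) ^ k * (u * X + (h * m) ^ D * Y)) * m' ^ (k + D + 1) =
      (u' ^ (D + 1) + (h * m') ^ k * (u' * X' + (h * m') ^ D * Y')) * m ^ (k + D + 1)) :
    m = m' ∧ X = X' ∧ Y = Y' := by
  obtain ⟨j, rfl⟩ : ∃ j, k = j + 1 := ⟨k - 1, by
    have : 144 ≤ D * D := Nat.mul_le_mul hD hD
    omega⟩
  have cp : ∀ (u h m B : ℤ), IsCoprime u m →
      IsCoprime (m ^ (j + 1 + D + 1)) (u ^ (D + 1) + (h * m) ^ (j + 1) * B) := by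
    intro u h m B c
    have : u ^ (D + 1) + (h * m) ^ (j + 1) * B = u ^ (D + 1) + m * (h * (h * m) ^ j * B) := by
      ring
    rw [this]
    exact ((c.pow_left.add_mul_left_left _).symm).pow_left
  have d1 : m ^ (j + 1 + D + 1) ∣ m' ^ (j + 1 + D + 1) :=
    (cp u h m _ cu).dvd_of_dvd_mul_left (Dvd.intro_left _ e.symm)
  have d2 : m' ^ (j + 1 + D + 1) ∣ m ^ (j + 1 + D + 1) :=
    (cp u' h m' _ cu').dvd_of_dvd_mul_left (Dvd.intro_left _ e)
  have em : m = m' := by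
    have := Int.dvd_antisymm (by positivity) (by positivity) d1 d2
    exact (pow_left_inj₀ hm.le hm'.le (by omega)).1 this
  subst em
  have e := mul_right_cancel₀ (pow_ne_zero _ hm.ne') e
  have hs : 0 < h * m := mul_pos hh hm
  have hw1 : 1 ≤ w := le_trans hs hw
  have hw1' : 1 ≤ w' := le_trans hs hw'
  have hwD : w ≤ w ^ D := le_self_pow₀ hw1 (by omega)
  have hwD' : w' ≤ w' ^ D := le_self_pow₀ hw1' (by omega)
  have hu0 : 0 < u := by linarith
  have hu0' : 0 < u' := by linarith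
  have b1 : |u * X + (h * m) ^ D * Y| ≤ 2 * u ^ 2 :=
    (br_bound D u _ X Y w hs hX hY hw hu).trans (by nlinarith)
  have b2 : |u' * X' + (h * m) ^ D * Y'| ≤ 2 * u' ^ 2 :=
    (br_bound D u' _ X' Y' w' hs hX' hY' hw' hu').trans (by nlinarith)
  have n1 := nolt D _ hl hD hk u u' h m _ _ hh hm im cu' hu0' b1 b2 h3 e
  have n2 := nolt D _ hl hD hk u' u h m _ _ hh hm im cu hu0 b2 b1 (by rwa [mul_comm u' u]) e.symm
  have eu : u = u' := le_antisymm (not_lt.1 n1) (not_lt.1 n2)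
  subst eu
  have eB := mul_left_cancel₀ (pow_ne_zero _ hs.ne') (add_left_cancel e)
  have e2 : u * (X - X') = m ^ D * (h ^ D * (Y' - Y)) := by
    rw [← mul_assoc, ← mul_pow, mul_comm m h]
    linarith
  have eY : Y = Y' := by
    by_contra hne
    have hd : u ∣ h ^ D * (Y' - Y) :=
      (cu.pow_right (n := D)).dvd_of_dvd_mul_left (e2 ▸ Dvd.intro _ rfl)
    have hD0 : 0 < h ^ D := pow_pos hh D
    have hle : u ≤ h ^ D * |Y' - Y| := by
      have := Int.le_of_dvd (abs_pos.2 (mul_ne_zero hD0.ne' (sub_ne_zero.2 (Ne.symm hne))))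
        ((dvd_abs _ _).2 hd)
      rwa [abs_mul, abs_of_pos hD0] at this
    obtain ⟨W, hW1, hW2, hW3⟩ : ∃ W : ℤ, 1 ≤ W ∧ |Y' - Y| ≤ 2 * W ∧ 3 * W ^ D ≤ u := by
      have := abs_sub Y' Y
      rcases le_total w w' with c | c
      · exact ⟨w', hw1', by linarith, hu'⟩
      · exact ⟨w, hw1, by linarith, hu⟩
    have c1 : u ≤ h ^ D * (2 * W) := hle.trans (by gcongr)
    have c2 : u ^ 3 ≤ (h ^ D * (2 * W)) ^ 3 := pow_le_pow_left₀ hu0.le c1 3
    have c3 : W ^ 3 ≤ W ^ D := pow_le_pow_right₀ hW1 (by omega)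
    have c4 : 9 * (h ^ D) ^ 3 ≤ u * u := by rwa [← pow_mul, mul_comm D 3]
    have hW0 : 0 < W ^ 3 := by positivity
    have c5 : 27 * u ^ 3 ≤ 8 * u ^ 3 := by
      calc 27 * u ^ 3 ≤ 27 * (h ^ D * (2 * W)) ^ 3 := by gcongr
        _ = 8 * ((9 * (h ^ D) ^ 3) * (3 * W ^ 3)) := by ring
        _ ≤ 8 * ((u * u) * u) := by
            gcongr
            linarith
        _ = 8 * u ^ 3 := by ring
    have : 0 < u ^ 3 := by positivity
    linarith
  subst eY
  refine ⟨rfl, ?_, rfl⟩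
  rw [sub_self, mul_zero, mul_zero] at e2
  exact sub_eq_zero.1 ((mul_eq_zero.1 e2).resolve_left hu0.ne')

end Pool.Agent.MP_adc87d_lc.BI
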