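import Mathlib

/-! Definitions for the polynomial pairing function on a set of rationals of density near one. -/

set_option autoImplicit false

namespace Pool.Agent.MP_adc87d_lc.BI

/-- `1 + x + ... + x ^ (l - 1)` -/
def phi (l : ℕ) (x : ℚ) : ℚ := ∑ i ∈ Finset.range l, x ^ i

/-- the polynomial `T ^ l + x T + y` with `T = l phi(x) phi(y)` -/
def pairPoly (l : ℕ) (z : ℚ × ℚ) : ℚ :=
  (l * phi l z.1 * phi l z.2) ^ l + z.1 * (l * phi l z.1 * phi l z.2) + z.2

/-- the height of a rational number -/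
def ht (x : ℚ) : ℕ := max x.num.natAbs x.den

/-- rationals whose denominator has small part on the primes that are `0` or `1` modulo `l` -/
def goodSet (l : ℕ) : Set ℚ :=
  {x | ∀ g : ℕ, g ∣ x.den → (∀ p : ℕ, p.Prime → p ∣ g → p % l ≤ 1) → g ^ 2 ≤ ht x}

end Pool.Agent.MP_adc87d_lc.BI
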