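import Mathlib
import Pool.Agent.MP_adc87d_lc.BI.Defs

/-! The good set has lower density at least `1 - 200 / l` in the height ordering. -/

set_option autoImplicit false

namespace Pool.Agent.MP_adc87d_lc.BI

open ArithmeticFunction ArithmeticFunction.vonMangoldt Complex LSeries Filter Finset

theorem upper {q : ℕ} [NeZero q] {a : ZMod q} (ha : IsUnit a) :
    ∃ C : ℝ, ∀ x ∈ Set.Ioc (1 : ℝ) 2,
      ∑' n, residueClass a n / (n : ℝ) ^ x ≤ (q.totient : ℝ)⁻¹ / (x - 1) + C := by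
  have H {x : ℝ} (hx : 1 < x) :
      ∑' n, residueClass a n / (n : ℝ) ^ x =
        (LFunctionResidueClassAux a x).re + (q.totient : ℝ)⁻¹ / (x - 1) := by
    refine ofReal_injective ?_
    simp only [ofReal_tsum, ofReal_div, ofReal_cpow (Nat.cast_nonneg _), ofReal_natCast,
      ofReal_add, ofReal_inv, ofReal_sub, ofReal_one]
    simp_rw [← LFunctionResidueClassAux_real ha hx,
      eqOn_LFunctionResidueClassAux ha <| Set.mem_ofPred.mpr (ofReal_re x ▸ hx), sub_add_cancel,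
      LSeries, term]
    refine tsum_congr fun n ↦ ?_
    split_ifs with hn
    · simp only [hn, residueClass_apply_zero, ofReal_zero, zero_div]
    · rfl
  have : ContinuousOn (fun x : ℝ ↦ (LFunctionResidueClassAux a x).re) (Set.Icc 1 2) :=
    continuous_re.continuousOn.comp (t := Set.univ) (continuousOn_LFunctionResidueClassAux a)
      (fun ⦃x⦄ a ↦ trivial) |>.comp continuous_ofReal.continuousOn fun x hx ↦ by
        simpa only [Set.mem_ofPred_eq, ofReal_re] using hx.1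
  obtain ⟨C, hC⟩ := bddAbove_def.mp <| IsCompact.bddAbove_image isCompact_Icc this
  refine ⟨C, fun x hx ↦ ?_⟩
  rw [H hx.1, add_comm, add_le_add_iff_left]
  exact hC _ (Set.mem_image_of_mem _ (Set.mem_Icc_of_Ioc hx))

theorem mert_one (l : ℕ) (hl : l.Prime) : ∃ C : ℝ, ∀ N : ℕ, 3 ≤ N →
    ∑ n ∈ Ioc 0 N, residueClass (1 : ZMod l) n / n ≤ 3 * (Real.log N / (l - 1)) + C := by
  have : NeZero l := ⟨hl.ne_zero⟩
  obtain ⟨C, hC⟩ := upper (q := l) (a := 1) isUnit_one
  refine ⟨3 * |C|, fun N hN => ?_⟩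
  have hN3 : (3 : ℝ) ≤ N := by exact_mod_cast hN
  have hL : 1 ≤ Real.log N := by
    rw [Real.le_log_iff_exp_le (by linarith)]
    exact (Real.exp_one_lt_three.le).trans hN3
  have hL0 : 0 < Real.log N := by linarith
  have hx1 : 1 < 1 + (Real.log N)⁻¹ := by simpa using hL0
  have hx2 : 1 + (Real.log N)⁻¹ ≤ 2 := by
    have := inv_le_one_of_one_le₀ hL
    linarith
  have h1 := hC _ ⟨hx1, hx2⟩
  have hs : Summable fun n : ℕ => residueClass (1 : ZMod l) n / (n : ℝ) ^ (1 + (Real.log N)⁻¹) :=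
    summable_real_of_abscissaOfAbsConv_lt <|
      (abscissaOfAbsConv_residueClass_le_one _).trans_lt <| mod_cast hx1
  have h2 := hs.sum_le_tsum (Ioc 0 N) fun n _ =>
    div_nonneg (residueClass_nonneg _ _) (by positivity)
  have h3 : ∑ n ∈ Ioc 0 N, residueClass (1 : ZMod l) n / n ≤
      3 * ∑ n ∈ Ioc 0 N, residueClass (1 : ZMod l) n / (n : ℝ) ^ (1 + (Real.log N)⁻¹) := by
    rw [mul_sum]
    refine sum_le_sum fun n hn => ?_
    obtain ⟨hn0, hnN⟩ := mem_Ioc.1 hn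
    have hn0' : (0 : ℝ) < n := by exact_mod_cast hn0
    have e : (n : ℝ) ^ (Real.log N)⁻¹ ≤ 3 := by
      calc (n : ℝ) ^ (Real.log N)⁻¹ ≤ (N : ℝ) ^ (Real.log N)⁻¹ :=
            Real.rpow_le_rpow hn0'.le (by exact_mod_cast hnN) (by positivity)
        _ = Real.exp 1 := by
            rw [Real.rpow_def_of_pos (by linarith), mul_inv_cancel₀ hL0.ne']
        _ ≤ 3 := Real.exp_one_lt_three.le
    have hr := residueClass_nonneg (1 : ZMod l) n
    have hp : 0 < (n : ℝ) ^ (Real.log N)⁻¹ := by positivity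
    rw [Real.rpow_add hn0', Real.rpow_one, ← mul_div_assoc, div_le_div_iff₀ hn0' (by positivity)]
    calc residueClass (1 : ZMod l) n * (n * (n : ℝ) ^ (Real.log N)⁻¹)
        ≤ residueClass (1 : ZMod l) n * (n * 3) := by gcongr
      _ = _ := by ring
  have h4 : ((l.totient : ℝ))⁻¹ / (1 + (Real.log N)⁻¹ - 1) = Real.log N / (l - 1) := by
    rw [Nat.totient_prime hl, Nat.cast_sub hl.one_le, add_sub_cancel_left, div_inv_eq_mul,
      Nat.cast_one, inv_mul_eq_div]
  rw [h4] at h1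
  have := le_abs_self C
  linarith

theorem mert_zero (l : ℕ) (hl : l.Prime) : ∃ C : ℝ, ∀ N : ℕ,
    ∑ n ∈ Ioc 0 N, residueClass (0 : ZMod l) n / n ≤ C := by
  have H : Summable fun n : ℕ => (if n.Prime then residueClass (0 : ZMod l) n else 0) / n := by
    refine summable_of_hasFiniteSupport ?_
    unfold Function.HasFiniteSupport
    rw [support_residueClass_prime_div]
    refine (Set.finite_singleton l).subset fun p hp => ?_
    exact ((Nat.prime_dvd_prime_iff_eq hl hp.1).1 ((ZMod.natCast_eq_zero_iff _ _).1 hp.2)).symm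
  have key : Summable fun n : ℕ => residueClass (0 : ZMod l) n / n := by
    convert! (summable_residueClass_non_primes_div (0 : ZMod l)).add H using 2 with n
    simp only [← add_div, ite_add_ite, zero_add, add_zero, ite_self]
  exact ⟨_, fun N => key.sum_le_tsum _ fun n _ =>
    div_nonneg (residueClass_nonneg _ _) (by positivity)⟩

theorem log_le (l : ℕ) (g b : ℕ) (hb : b ≠ 0) (hg : g ∣ b)
    (v : ∀ p : ℕ, p.Prime → p ∣ g → p % l ≤ 1) : Real.log g ≤
      ∑ n ∈ b.divisors, (residueClass (0 : ZMod l) n + residueClass (1 : ZMod l) n) := by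
  have nn : ∀ n, 0 ≤ residueClass (0 : ZMod l) n + residueClass (1 : ZMod l) n := fun n =>
    add_nonneg (residueClass_nonneg _ _) (residueClass_nonneg _ _)
  rw [← vonMangoldt_sum]
  refine le_trans (sum_le_sum fun n hn => ?_)
    (sum_le_sum_of_subset_of_nonneg (Nat.divisors_subset_of_dvd hb hg) fun n _ _ => nn n)
  by_cases h : IsPrimePow n
  · obtain ⟨p, k, hp, hk, rfl⟩ := (isPrimePow_nat_iff n).1 h
    have hv := v p hp ((dvd_pow_self p hk.ne').trans (Nat.dvd_of_mem_divisors hn))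
    have e : ((p ^ k : ℕ) : ZMod l) = ((p % l : ℕ) : ZMod l) ^ k := by
      rw [ZMod.natCast_mod, Nat.cast_pow]
    rcases Nat.le_one_iff_eq_zero_or_eq_one.1 hv with c | c
    · rw [c, Nat.cast_zero, zero_pow hk.ne'] at e
      have : residueClass (0 : ZMod l) (p ^ k) = vonMangoldt (p ^ k) :=
        Set.indicator_of_mem (s := {n : ℕ | (n : ZMod l) = 0}) e _
      have := residueClass_nonneg (1 : ZMod l) (p ^ k)
      linarith
    · rw [c, Nat.cast_one, one_pow] at e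
      have : residueClass (1 : ZMod l) (p ^ k) = vonMangoldt (p ^ k) :=
        Set.indicator_of_mem (s := {n : ℕ | (n : ZMod l) = 1}) e _
      have := residueClass_nonneg (0 : ZMod l) (p ^ k)
      linarith
  · rw [vonMangoldt_eq_zero_iff.2 h]
    exact nn n

theorem double (f : ℕ → ℝ) (hf : ∀ n, 0 ≤ f n) (N : ℕ) :
    ∑ b ∈ Ioc 0 N, ∑ n ∈ b.divisors, f n ≤ N * ∑ n ∈ Ioc 0 N, f n / n := by
  have e : ∀ b ∈ Ioc 0 N, ∑ n ∈ b.divisors, f n = ∑ n ∈ Ioc 0 N, if n ∣ b then f n else 0 := by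
    intro b hb
    obtain ⟨h0, h1⟩ := mem_Ioc.1 hb
    rw [← sum_filter]
    congr 1
    ext n
    simp only [Nat.mem_divisors, mem_filter, mem_Ioc]
    exact ⟨fun h => ⟨⟨Nat.pos_of_dvd_of_pos h.1 h0, (Nat.le_of_dvd h0 h.1).trans h1⟩, h.1⟩,
      fun h => ⟨h.2, h0.ne'⟩⟩
  rw [sum_congr rfl e, sum_comm, mul_sum]
  refine sum_le_sum fun n _ => ?_
  rw [← sum_filter, sum_const, Nat.Ioc_filter_dvd_card_eq_div, nsmul_eq_mul]
  calc ((N / n : ℕ) : ℝ) * f n ≤ (N / n) * f n := by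
        have := hf n
        gcongr
        exact Nat.cast_div_le
    _ = _ := by ring

open scoped Classical in
theorem bad_den (l : ℕ) (hl : l.Prime) (h13 : 13 ≤ l) : ∀ᶠ N : ℕ in atTop,
    (((Ioc 0 N).filter fun b => ∃ g : ℕ, g ∣ b ∧ (∀ p : ℕ, p.Prime → p ∣ g → p % l ≤ 1) ∧
      b < g ^ 2).card : ℝ) ≤ 16 * N / l := by
  obtain ⟨C1, h1⟩ := mert_one l hl
  obtain ⟨C0, h0⟩ := mert_zero l hl
  have hl' : (13 : ℝ) ≤ l := by exact_mod_cast h13
  have T : Tendsto (fun N : ℕ => Real.log N) atTop atTop :=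
    Real.tendsto_log_atTop.comp tendsto_natCast_atTop_atTop
  filter_upwards [eventually_ge_atTop 3, T.eventually_ge_atTop (2 * Real.log l),
    T.eventually_ge_atTop (2 * l * (C0 + C1)), T.eventually_gt_atTop 0] with N hN a1 a2 a3
  set S := (Ioc 0 N).filter fun b => ∃ g : ℕ, g ∣ b ∧ (∀ p : ℕ, p.Prime → p ∣ g → p % l ≤ 1) ∧
      b < g ^ 2 with hS
  have hN0 : (0 : ℝ) < N := by exact_mod_cast (by omega : 0 < N)
  have s1 : ((S.filter fun b => l * b ≤ N).card : ℝ) ≤ N / l := by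
    have : (S.filter fun b => l * b ≤ N) ⊆ Ioc 0 (N / l) := fun b hb => by
      obtain ⟨hb1, hb2⟩ := mem_filter.1 hb
      exact mem_Ioc.2 ⟨(mem_Ioc.1 (mem_filter.1 hb1).1).1,
        (Nat.le_div_iff_mul_le hl.pos).2 (by rwa [mul_comm])⟩
    have := card_le_card this
    rw [Nat.card_Ioc, Nat.sub_zero] at this
    exact le_trans (by exact_mod_cast this) Nat.cast_div_le
  have nn : ∀ n, 0 ≤ residueClass (0 : ZMod l) n + residueClass (1 : ZMod l) n := fun n =>
    add_nonneg (residueClass_nonneg _ _) (residueClass_nonneg _ _)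
  have s2 : ((S.filter fun b => ¬ l * b ≤ N).card : ℝ) * (Real.log N / 4) ≤
      N * (3 * (Real.log N / (l - 1)) + (C0 + C1)) := by
    calc ((S.filter fun b => ¬ l * b ≤ N).card : ℝ) * (Real.log N / 4)
        = ∑ _b ∈ S.filter fun b => ¬ l * b ≤ N, Real.log N / 4 := by
          rw [sum_const, nsmul_eq_mul]
      _ ≤ ∑ b ∈ S.filter fun b => ¬ l * b ≤ N, ∑ n ∈ b.divisors,
            (residueClass (0 : ZMod l) n + residueClass (1 : ZMod l) n) := by
          refine sum_le_sum fun b hb => ?_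
          obtain ⟨hb1, hb2⟩ := mem_filter.1 hb
          obtain ⟨hb3, g, hg, v, hlt⟩ := mem_filter.1 hb1
          have hb0 := (mem_Ioc.1 hb3).1
          have hb0' : (0 : ℝ) < b := by exact_mod_cast hb0
          refine le_trans ?_ (log_le l g b hb0.ne' hg v)
          have t1 : Real.log b ≤ 2 * Real.log g := by
            have : Real.log b ≤ Real.log ((g : ℝ) ^ 2) :=
              Real.log_le_log hb0' (by exact_mod_cast hlt.le)
            rwa [Real.log_pow, Nat.cast_ofNat] at this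
          have t2 : Real.log N ≤ Real.log l + Real.log b := by
            rw [← Real.log_mul (by linarith) hb0'.ne']
            exact Real.log_le_log hN0 (by exact_mod_cast (not_le.1 hb2).le)
          linarith
      _ ≤ ∑ b ∈ Ioc 0 N, ∑ n ∈ b.divisors,
            (residueClass (0 : ZMod l) n + residueClass (1 : ZMod l) n) :=
          sum_le_sum_of_subset_of_nonneg ((filter_subset _ _).trans (filter_subset _ _))
            fun b _ _ => sum_nonneg fun n _ => nn n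
      _ ≤ _ := double _ nn N
      _ ≤ _ := by
          simp only [add_div, sum_add_distrib]
          have := h1 N hN
          have := h0 N
          exact mul_le_mul_of_nonneg_left (by linarith) hN0.le
  have s3 : ((S.filter fun b => ¬ l * b ≤ N).card : ℝ) ≤ 15 * N / l := by
    refine le_of_mul_le_mul_right (s2.trans ?_) (by positivity : 0 < Real.log N / 4)
    have t1 : 3 * (Real.log N / (l - 1)) ≤ 13 / l * (Real.log N / 4) := by
      have : 1 / ((l : ℝ) - 1) ≤ 13 / (12 * l) := by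
        rw [div_le_div_iff₀ (by linarith) (by positivity)]
        linarith
      calc 3 * (Real.log N / (l - 1)) = 3 * Real.log N * (1 / (l - 1)) := by ring
        _ ≤ 3 * Real.log N * (13 / (12 * l)) := by gcongr
        _ = _ := by ring
    have t2 : C0 + C1 ≤ 2 / l * (Real.log N / 4) := by
      rw [div_mul_eq_mul_div, le_div_iff₀ (by linarith)]
      linarith
    calc (N : ℝ) * (3 * (Real.log N / (l - 1)) + (C0 + C1))
        ≤ N * (13 / l * (Real.log N / 4) + 2 / l * (Real.log N / 4)) := by gcongr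
      _ = _ := by ring
  have s4 := card_filter_add_card_filter_not (s := S) (fun b => l * b ≤ N)
  rw [← s4]
  push_cast
  calc _ ≤ N / l + 15 * N / (l : ℝ) := add_le_add s1 s3
    _ = _ := by ring

theorem inv_sq (n : ℕ) : ∑ d ∈ Icc 2 (n + 2), 1 / (d : ℝ) ^ 2 ≤ 3 / 4 - 1 / (n + 2 : ℝ) := by
  induction n with
  | zero => norm_num
  | succ n ih =>
    rw [add_right_comm n 1 2, sum_Icc_succ_top (by omega)]
    push_cast
    have : 1 / ((n : ℝ) + 2 + 1) ^ 2 ≤ 1 / (n + 2) - 1 / (n + 1 + 2) := by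
      rw [div_sub_div _ _ (by positivity) (by positivity), div_le_div_iff₀ (by positivity)
        (by positivity)]
      nlinarith [(Nat.cast_nonneg n : (0 : ℝ) ≤ n)]
    linarith

theorem cop_count (N : ℕ) (hN : 2 ≤ N) : (N : ℝ) ^ 2 / 4 ≤
    (((Ioc 0 N ×ˢ Ioc 0 N).filter fun z : ℕ × ℕ => z.1.Coprime z.2).card : ℝ) := by
  have s4 := card_filter_add_card_filter_not (s := Ioc 0 N ×ˢ Ioc 0 N)
    (fun z : ℕ × ℕ => z.1.Coprime z.2)
  rw [card_product, Nat.card_Ioc, Nat.sub_zero] at s4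
  have s5 : ((Ioc 0 N ×ˢ Ioc 0 N).filter fun z : ℕ × ℕ => ¬ z.1.Coprime z.2) ⊆
      (Icc 2 N).biUnion fun d => ((Ioc 0 N).filter (d ∣ ·)) ×ˢ ((Ioc 0 N).filter (d ∣ ·)) := by
    intro z hz
    obtain ⟨h1, h2⟩ := mem_filter.1 hz
    obtain ⟨h3, h4⟩ := mem_product.1 h1
    have h5 := mem_Ioc.1 h3
    refine mem_biUnion.2 ⟨z.1.gcd z.2, mem_Icc.2 ⟨?_, (Nat.gcd_le_left _ h5.1).trans h5.2⟩,
      mem_product.2 ⟨mem_filter.2 ⟨h3, Nat.gcd_dvd_left _ _⟩,
        mem_filter.2 ⟨h4, Nat.gcd_dvd_right _ _⟩⟩⟩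
    have := Nat.gcd_pos_of_pos_left z.2 h5.1
    have : z.1.gcd z.2 ≠ 1 := h2
    omega
  have s6 := (card_le_card s5).trans card_biUnion_le
  have s7 : ((∑ d ∈ Icc 2 N, (((Ioc 0 N).filter (d ∣ ·)) ×ˢ ((Ioc 0 N).filter (d ∣ ·))).card : ℕ) :
      ℝ) ≤ N ^ 2 * (3 / 4) := by
    obtain ⟨n, rfl⟩ := Nat.exists_eq_add_of_le' hN
    have := inv_sq n
    have h0 : (0 : ℝ) ≤ 1 / (n + 2 : ℝ) := by positivity
    refine le_trans ?_ (mul_le_mul_of_nonneg_left (this.trans (sub_le_self _ h0)) (by positivity))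
    rw [mul_sum, Nat.cast_sum]
    refine sum_le_sum fun d _ => ?_
    rw [card_product, Nat.Ioc_filter_dvd_card_eq_div, Nat.cast_mul, ← sq, mul_one_div, ← div_pow]
    exact pow_le_pow_left₀ (by positivity) Nat.cast_div_le 2
  have s8 : ((_ : ℕ) : ℝ) ≤ _ := Nat.cast_le.2 s6
  have s9 := congrArg (fun n : ℕ => (n : ℝ)) s4
  push_cast at s9
  nlinarith

theorem nd_inj : Function.Injective fun x : ℚ => (x.num, x.den) := fun x y h => by
  obtain ⟨h1, h2⟩ := Prod.mk.inj h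
  exact Rat.ext h1 h2

theorem mem_box {x : ℚ} {N : ℕ} (h : ht x ≤ N) :
    x.num ∈ Icc (-(N : ℤ)) N ∧ x.den ∈ Ioc 0 N := by
  obtain ⟨h1, h2⟩ := max_le_iff.1 h
  exact ⟨mem_Icc.2 (by omega), mem_Ioc.2 ⟨x.den_pos, h2⟩⟩

theorem fin_ht (N : ℕ) : {x : ℚ | ht x ≤ N}.Finite :=
  Set.Finite.of_injOn (f := fun x : ℚ => (x.num, x.den))
    (t := ((Icc (-(N : ℤ)) N ×ˢ Ioc 0 N : Finset (ℤ × ℕ)) : Set (ℤ × ℕ)))
    (fun _ hx => mem_coe.2 (mem_product.2 (mem_box hx))) nd_inj.injOn (finite_toSet _)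

theorem total (N : ℕ) (hN : 2 ≤ N) : (N : ℝ) ^ 2 / 4 ≤ ({x : ℚ | ht x ≤ N}.ncard : ℝ) := by
  refine (cop_count N hN).trans (Nat.cast_le.2 ?_)
  rw [← Set.ncard_coe_finset]
  have nd : ∀ z : ℕ × ℕ, z ∈ ((Ioc 0 N ×ˢ Ioc 0 N).filter fun z : ℕ × ℕ => z.1.Coprime z.2) →
      ((z.1 : ℚ) / z.2).num = z.1 ∧ ((z.1 : ℚ) / z.2).den = z.2 := by
    intro z hz
    obtain ⟨h1, h2⟩ := mem_filter.1 hz
    have h3 : (0 : ℤ) < (z.2 : ℤ) := by exact_mod_cast (mem_Ioc.1 (mem_product.1 h1).2).1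
    have h4 : Nat.Coprime (z.1 : ℤ).natAbs (z.2 : ℤ).natAbs := by simpa using h2
    have a := Rat.num_div_eq_of_coprime h3 h4
    have b := Rat.den_div_eq_of_coprime h3 h4
    push_cast at a b
    exact ⟨a, by exact_mod_cast b⟩
  refine Set.ncard_le_ncard_of_injOn (fun z : ℕ × ℕ => (z.1 : ℚ) / z.2) (fun z hz => ?_)
    (fun z hz z' hz' e => ?_) (fin_ht N)
  · obtain ⟨a, b⟩ := nd z hz
    obtain ⟨h3, h4⟩ := mem_product.1 (mem_filter.1 hz).1
    change max _ _ ≤ N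
    rw [a, b, Int.natAbs_natCast]
    exact max_le (mem_Ioc.1 h3).2 (mem_Ioc.1 h4).2
  · obtain ⟨a, b⟩ := nd z hz
    obtain ⟨a', b'⟩ := nd z' hz'
    have e : (z.1 : ℚ) / z.2 = (z'.1 : ℚ) / z'.2 := e
    rw [e, a'] at a
    rw [e, b'] at b
    exact Prod.ext (by exact_mod_cast a.symm) b.symm

theorem dens (l : ℕ) (hl : l.Prime) (h13 : 13 ≤ l) : ∀ᶠ N : ℕ in atTop,
    (1 - 200 / (l : ℝ)) * ({x : ℚ | ht x ≤ N}.ncard : ℝ) ≤
      ({x : ℚ | ht x ≤ N ∧ x ∈ goodSet l}.ncard : ℝ) := by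
  classical
  filter_upwards [bad_den l hl h13, eventually_ge_atTop 2] with N h hN
  have hl' : (13 : ℝ) ≤ l := by exact_mod_cast h13
  have hN' : (2 : ℝ) ≤ N := by exact_mod_cast hN
  have t := total N hN
  set S := (Ioc 0 N).filter fun b => ∃ g : ℕ, g ∣ b ∧ (∀ p : ℕ, p.Prime → p ∣ g → p % l ≤ 1) ∧
      b < g ^ 2 with hS
  have u1 : {x : ℚ | ht x ≤ N ∧ x ∉ goodSet l}.ncard ≤ (2 * N + 1) * S.card := by
    have : (Icc (-(N : ℤ)) N ×ˢ S).card = (2 * N + 1) * S.card := by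
      rw [card_product, Int.card_Icc]
      congr 1
      omega
    rw [← this, ← Set.ncard_coe_finset]
    refine Set.ncard_le_ncard_of_injOn (fun x : ℚ => (x.num, x.den)) (fun x hx => ?_)
      nd_inj.injOn (finite_toSet _)
    obtain ⟨a, b⟩ := mem_box hx.1
    refine mem_coe.2 (mem_product.2 ⟨a, mem_filter.2 ⟨b, ?_⟩⟩)
    by_contra hc
    refine hx.2 fun g hg v => ?_
    exact (not_lt.1 fun hlt => hc ⟨g, hg, v, hlt⟩).trans (le_max_right _ _)
  have u2 : {x : ℚ | ht x ≤ N}.ncard ≤ {x : ℚ | ht x ≤ N ∧ x ∈ goodSet l}.ncard +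
      {x : ℚ | ht x ≤ N ∧ x ∉ goodSet l}.ncard := by
    refine le_trans (le_of_eq ?_) (Set.ncard_union_le _ _)
    congr 1
    ext x
    simp only [Set.mem_ofPred_eq, Set.mem_union]
    tauto
  have u3 : (({x : ℚ | ht x ≤ N ∧ x ∉ goodSet l}.ncard : ℕ) : ℝ) ≤ (2 * N + 1) * S.card := by
    exact_mod_cast u1
  have u4 : ((_ : ℕ) : ℝ) ≤ _ := Nat.cast_le.2 u2
  push_cast at u4
  have u5 : (2 * N + 1 : ℝ) * S.card ≤ 200 / l * (N ^ 2 / 4) := by
    calc (2 * N + 1 : ℝ) * S.card ≤ (3 * N) * (16 * N / l) := by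
          gcongr
          linarith
      _ = 192 / l * (N ^ 2 / 4) := by ring
      _ ≤ _ := by gcongr; norm_num
  have u6 : 200 / (l : ℝ) * (N ^ 2 / 4) ≤ 200 / l * ({x : ℚ | ht x ≤ N}.ncard : ℝ) := by gcongr
  linarith

end Pool.Agent.MP_adc87d_lc.BI
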