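import Mathlib
import Pool.Agent.MP_adc87d_lc.BI.Defs
import Pool.Agent.MP_adc87d_lc.BI.Core

/-! The pairing polynomial is injective on the good set and preserves it. -/

set_option autoImplicit false

namespace Pool.Agent.MP_adc87d_lc.BI

theorem split (l n : ℕ) : n ≠ 0 → ∃ g m : ℕ, n = g * m ∧ (∀ p : ℕ, p.Prime → p ∣ g → p % l ≤ 1) ∧
    (∀ p : ℕ, p.Prime → p ∣ m → 2 ≤ p % l) := by
  induction n using induction_on_primes with
  | zero => exact fun h => (h rfl).elim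
  | one =>
    exact fun _ => ⟨1, 1, rfl, fun p hp h => (hp.not_dvd_one h).elim,
      fun p hp h => (hp.not_dvd_one h).elim⟩
  | prime_mul q a hq ih =>
    intro h
    obtain ⟨g, m, e, h1, h2⟩ := ih (right_ne_zero_of_mul h)
    rcases le_or_gt (q % l) 1 with c | c
    · refine ⟨q * g, m, by rw [e, mul_assoc], fun p hp hd => ?_, h2⟩
      rcases (Nat.Prime.dvd_mul hp).1 hd with d | d
      · rwa [(Nat.prime_dvd_prime_iff_eq hp hq).1 d]
      · exact h1 p hp d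
    · refine ⟨g, q * m, by rw [e]; ring, h1, fun p hp hd => ?_⟩
      rcases (Nat.Prime.dvd_mul hp).1 hd with d | d
      · rwa [(Nat.prime_dvd_prime_iff_eq hp hq).1 d]
      · exact h2 p hp d

theorem ph_vis' (l : ℕ) (hl : l.Prime) (a b : ℤ) (hc : IsCoprime a b) (p : ℕ) (hp : p.Prime)
    (h : (p : ℤ) ∣ ph l a b) : p % l ≤ 1 := by
  refine ph_vis l hl a b p hp h fun hb => not_dvd_of_cop hc p hp hb ?_
  have h1 : (p : ℤ) ∣ a ^ l - b ^ l := ph_mul l a b ▸ h.mul_right _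
  have h2 : (p : ℤ) ∣ a ^ l := by
    have := h1.add (dvd_pow hb hl.ne_zero)
    rwa [sub_add_cancel] at this
  exact (Nat.prime_iff_prime_int.1 hp).dvd_of_dvd_pow h2

theorem phi_eq (D : ℕ) (x : ℚ) :
    phi (D + 1) x = (ph (D + 1) x.num x.den : ℤ) / (x.den : ℚ) ^ D := by
  have hb : (x.den : ℚ) ≠ 0 := by exact_mod_cast x.den_nz
  unfold phi ph
  push_cast
  rw [Finset.sum_div]
  refine Finset.sum_congr rfl fun i hi => ?_
  obtain ⟨c, rfl⟩ := Nat.exists_eq_add_of_le (Nat.lt_succ_iff.1 (Finset.mem_range.1 hi))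
  rw [Nat.add_sub_cancel_left, pow_add, mul_div_mul_right _ _ (pow_ne_zero _ hb), ← div_pow,
    Rat.num_div_den]

theorem ht_cast (x : ℚ) : ((ht x : ℕ) : ℤ) = max |x.num| (x.den : ℤ) := by
  unfold ht
  push_cast
  rfl

theorem ratcop (x : ℚ) : IsCoprime x.num (x.den : ℤ) := by
  rw [Int.isCoprime_iff_gcd_eq_one]
  exact x.reduced

theorem data (D : ℕ) (hl : (D + 1).Prime) (hD : 12 ≤ D) (x y : ℚ) (hx : x ∈ goodSet (D + 1))
    (hy : y ∈ goodSet (D + 1)) : ∃ g m N X Y G : ℤ, 0 < g ∧ 0 < m ∧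
    (∀ p : ℕ, p.Prime → (p : ℤ) ∣ g → p % (D + 1) ≤ 1) ∧
    (∀ p : ℕ, p.Prime → (p : ℤ) ∣ m → 2 ≤ p % (D + 1)) ∧ IsCoprime N m ∧ |X| ≤ G ∧ |Y| ≤ G ∧
    g * m ≤ G ∧ g ^ 2 ≤ G ∧ 3 * G ^ D ≤ N ∧ x = X / (g * m) ∧ y = Y / (g * m) ∧
    ((D + 1 : ℕ) : ℚ) * phi (D + 1) x * phi (D + 1) y = N / (g * m) ^ D := by
  obtain ⟨g1, m1, e1, v1, i1⟩ := split (D + 1) x.den x.den_nz
  obtain ⟨g2, m2, e2, v2, i2⟩ := split (D + 1) y.den y.den_nz
  have hev : Even D := by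
    rcases hl.eq_two_or_odd' with h | h
    · omega
    · exact (Nat.odd_add_one.1 h) |> Nat.not_odd_iff_even.1
  have hb : (0 : ℤ) < x.den := by exact_mod_cast x.den_pos
  have hd : (0 : ℤ) < y.den := by exact_mod_cast y.den_pos
  have l1 := ph_lower D hev x.num x.den hb
  have l2 := ph_lower D hev y.num y.den hd
  have s1 : (g1 : ℤ) ^ 2 ≤ max |x.num| (x.den : ℤ) := by
    rw [← ht_cast]
    exact_mod_cast hx g1 (Dvd.intro _ e1.symm) v1
  have s2 : (g2 : ℤ) ^ 2 ≤ max |y.num| (y.den : ℤ) := by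
    rw [← ht_cast]
    exact_mod_cast hy g2 (Dvd.intro _ e2.symm) v2
  have a1 := le_max_left |x.num| (x.den : ℤ)
  have a2 := le_max_right |x.num| (x.den : ℤ)
  have a3 := le_max_left |y.num| (y.den : ℤ)
  have a4 := le_max_right |y.num| (y.den : ℤ)
  set H1 := max |x.num| (x.den : ℤ)
  set H2 := max |y.num| (y.den : ℤ)
  have hH1 : 0 < H1 := hb.trans_le a2
  have hH2 : 0 < H2 := hd.trans_le a4
  have p1 : g1 ≠ 0 ∧ m1 ≠ 0 := mul_ne_zero_iff.1 (e1 ▸ x.den_nz)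
  have p2 : g2 ≠ 0 ∧ m2 ≠ 0 := mul_ne_zero_iff.1 (e2 ▸ y.den_nz)
  have egm : ((g1 * g2 : ℕ) : ℤ) * ((m1 * m2 : ℕ) : ℤ) = (x.den : ℤ) * y.den := by
    rw [e1, e2]
    push_cast
    ring
  have egq : (((g1 * g2 : ℕ) : ℤ) : ℚ) * (((m1 * m2 : ℕ) : ℤ) : ℚ) = (x.den : ℚ) * y.den := by
    exact_mod_cast egm
  have im : ∀ p : ℕ, p.Prime → (p : ℤ) ∣ ((m1 * m2 : ℕ) : ℤ) → 2 ≤ p % (D + 1) := by
    intro p hp h
    rcases (Nat.Prime.dvd_mul hp).1 (Int.natCast_dvd_natCast.1 h) with d | d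
    · exact i1 p hp d
    · exact i2 p hp d
  have hbq : (x.den : ℚ) ≠ 0 := by exact_mod_cast x.den_nz
  have hdq : (y.den : ℚ) ≠ 0 := by exact_mod_cast y.den_nz
  refine ⟨(g1 * g2 : ℕ), (m1 * m2 : ℕ),
    ((D + 1 : ℕ) : ℤ) * ph (D + 1) x.num x.den * ph (D + 1) y.num y.den,
    x.num * y.den, y.num * x.den, H1 * H2, ?_, ?_, ?_, im, ?_, ?_, ?_, ?_, ?_, ?_, ?_, ?_, ?_⟩
  · exact_mod_cast Nat.pos_of_ne_zero (mul_ne_zero p1.1 p2.1)
  · exact_mod_cast Nat.pos_of_ne_zero (mul_ne_zero p1.2 p2.2)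
  · intro p hp h
    rcases (Nat.Prime.dvd_mul hp).1 (Int.natCast_dvd_natCast.1 h) with d | d
    · exact v1 p hp d
    · exact v2 p hp d
  · refine (cop_of_primes fun p hp h hd => ?_).symm
    have := im p hp h
    have hpi := Nat.prime_iff_prime_int.1 hp
    rcases hpi.dvd_or_dvd hd with d | d
    · rcases hpi.dvd_or_dvd d with d | d
      · rw [(Nat.prime_dvd_prime_iff_eq hp hl).1 (Int.natCast_dvd_natCast.1 d), Nat.mod_self] at this
        omega
      · have := ph_vis' _ hl _ _ (ratcop x) p hp d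
        omega
    · have := ph_vis' _ hl _ _ (ratcop y) p hp d
      omega
  · rw [abs_mul, abs_of_pos hd]
    gcongr
  · rw [abs_mul, abs_of_pos hb, mul_comm]
    gcongr
  · rw [egm]
    gcongr
  · push_cast
    rw [mul_pow]
    gcongr
  · have : H1 ^ D * H2 ^ D ≤ (2 * ph (D + 1) x.num x.den) * (2 * ph (D + 1) y.num y.den) := by
      have : 0 < H1 ^ D := pow_pos hH1 D
      gcongr
      linarith
    have h0 : 0 < H1 ^ D * H2 ^ D := by positivity
    have h13 : (12 : ℤ) ≤ ((D + 1 : ℕ) : ℤ) := by exact_mod_cast (by omega : 12 ≤ D + 1)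
    rw [mul_pow, mul_assoc]
    nlinarith
  · rw [egq]
    push_cast
    rw [mul_div_mul_right _ _ hdq, Rat.num_div_den]
  · rw [egq]
    push_cast
    rw [mul_comm (x.den : ℚ), mul_div_mul_right _ _ hbq, Rat.num_div_den]
  · rw [egq, phi_eq, phi_eq, mul_pow]
    push_cast
    field_simp

theorem form (D k : ℕ) (hk : D * D = k + 1) (u s X Y : ℚ) (hs : s ≠ 0) :
    (u / s ^ D) ^ (D + 1) + X / s * (u / s ^ D) + Y / s =
      (u ^ (D + 1) + s ^ k * (u * X + s ^ D * Y)) / s ^ (k + D + 1) := by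
  have : (s ^ D) ^ (D + 1) = s ^ (k + D + 1) := by
    rw [← pow_mul]
    congr 1
    rw [mul_add, hk]
    ring
  rw [div_pow, this, pow_succ s, pow_add s k D]
  field_simp
  ring

theorem injOn (l : ℕ) (hl : l.Prime) (h13 : 13 ≤ l) :
    Set.InjOn (pairPoly l) (goodSet l ×ˢ goodSet l) := by
  obtain ⟨D, rfl⟩ : ∃ D, l = D + 1 := ⟨l - 1, by omega⟩
  have hD : 12 ≤ D := by omega
  obtain ⟨k, hk⟩ : ∃ k, D * D = k + 1 := ⟨D * D - 1, by
    have : 144 ≤ D * D := Nat.mul_le_mul hD hD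
    omega⟩
  rintro ⟨x, y⟩ ⟨hx, hy⟩ ⟨x', y'⟩ ⟨hx', hy'⟩ e
  obtain ⟨g, m, N, X, Y, G, g0, m0, vg, im, c, bX, bY, bs, bg, bN, ex, ey, eT⟩ :=
    data D hl hD x y hx hy
  obtain ⟨g', m', N', X', Y', G', g0', m0', vg', im', c', bX', bY', bs', bg', bN', ex', ey', eT'⟩ :=
    data D hl hD x' y' hx' hy'
  have gq : (g : ℚ) ≠ 0 := by exact_mod_cast g0.ne'
  have gq' : (g' : ℚ) ≠ 0 := by exact_mod_cast g0'.ne'
  have mq : (m : ℚ) ≠ 0 := by exact_mod_cast m0.ne'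
  have mq' : (m' : ℚ) ≠ 0 := by exact_mod_cast m0'.ne'
  have fx : x = (X * g' : ℚ) / (g * g' * m) := by rw [ex]; field_simp
  have fy : y = (Y * g' : ℚ) / (g * g' * m) := by rw [ey]; field_simp
  have fT : (N : ℚ) / (g * m) ^ D = (N * g' ^ D : ℚ) / (g * g' * m) ^ D := by
    simp only [mul_pow]; field_simp
  have fx' : x' = (X' * g : ℚ) / (g * g' * m') := by rw [ex']; field_simp
  have fy' : y' = (Y' * g : ℚ) / (g * g' * m') := by rw [ey']; field_simp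
  have fT' : (N' : ℚ) / (g' * m') ^ D = (N' * g ^ D : ℚ) / (g * g' * m') ^ D := by
    simp only [mul_pow]; field_simp
  simp only [pairPoly] at e
  rw [eT, eT', fT, fT'] at e
  have e2 := form D k hk (N * g' ^ D) (g * g' * m) (X * g') (Y * g') (by positivity)
  have e3 := form D k hk (N' * g ^ D) (g * g' * m') (X' * g) (Y' * g) (by positivity)
  rw [← fx, ← fy, e, ] at e2
  rw [← fx', ← fy', e2, div_eq_div_iff (by positivity) (by positivity)] at e3
  have G0 : 0 < G := (mul_pos g0 m0).trans_le bs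
  have G0' : 0 < G' := (mul_pos g0' m0').trans_le bs'
  have cv : ∀ a b : ℤ, (∀ p : ℕ, p.Prime → (p : ℤ) ∣ a → p % (D + 1) ≤ 1) →
      (∀ p : ℕ, p.Prime → (p : ℤ) ∣ b → 2 ≤ p % (D + 1)) → IsCoprime a b := fun a b ha hb =>
    cop_of_primes fun p hp h1 h2 => by
      have := ha p hp h1
      have := hb p hp h2
      omega
  obtain ⟨r1, r2, r3⟩ := core D k hl hD hk (N * g' ^ D) (N' * g ^ D) (g * g') m m' (X * g') (Y * g')
    (X' * g) (Y' * g) (G * g') (G' * g) (mul_pos g0 g0') m0 m0' im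
    (c.mul_left (cv _ _ vg' im).pow_left) (c'.mul_left (cv _ _ vg im').pow_left)
    (by rw [abs_mul, abs_of_pos g0']; gcongr) (by rw [abs_mul, abs_of_pos g0']; gcongr)
    (by nlinarith) (by rw [mul_pow, ← mul_assoc]; gcongr)
    (by rw [abs_mul, abs_of_pos g0]; gcongr) (by rw [abs_mul, abs_of_pos g0]; gcongr)
    (by nlinarith) (by rw [mul_pow, ← mul_assoc]; gcongr)
    (by
      have a1 : (g ^ 2) ^ D ≤ G ^ D := pow_le_pow_left₀ (by positivity) bg D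
      have a2 : (g' ^ 2) ^ D ≤ G' ^ D := pow_le_pow_left₀ (by positivity) bg' D
      have N0 : 0 < N := lt_of_lt_of_le (by positivity) bN
      calc 9 * (g * g') ^ (3 * D) = (3 * (g ^ 2) ^ D * g' ^ D) * (3 * (g' ^ 2) ^ D * g ^ D) := by
            ring
        _ ≤ (N * g' ^ D) * (N' * g ^ D) := by
            gcongr <;> linarith)
    (by
      have hq : ((g : ℚ) * g') ^ (k + D + 1) ≠ 0 := by positivity
      rw [mul_pow _ (m : ℚ) (k + D + 1), mul_pow _ (m' : ℚ) (k + D + 1), mul_left_comm,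
        mul_left_comm _ (((g : ℚ) * g') ^ (k + D + 1))] at e3
      exact_mod_cast mul_left_cancel₀ hq e3)
  have r2' : (X * g' : ℚ) = X' * g := by exact_mod_cast r2
  have r3' : (Y * g' : ℚ) = Y' * g := by exact_mod_cast r3
  rw [Prod.mk.injEq, fx, fy, fx', fy', r1, r2', r3']
  exact ⟨rfl, rfl⟩

theorem mapsTo (l : ℕ) (hl : l.Prime) (h13 : 13 ≤ l) :
    Set.MapsTo (pairPoly l) (goodSet l ×ˢ goodSet l) (goodSet l) := by
  obtain ⟨D, rfl⟩ : ∃ D, l = D + 1 := ⟨l - 1, by omega⟩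
  have hD : 12 ≤ D := by omega
  obtain ⟨j, hk⟩ : ∃ j, D * D = j + 1 + 1 := ⟨D * D - 2, by
    have : 144 ≤ D * D := Nat.mul_le_mul hD hD
    omega⟩
  rintro ⟨x, y⟩ ⟨hx, hy⟩
  obtain ⟨g, m, N, X, Y, G, g0, m0, vg, im, c, bX, bY, bs, bg, bN, ex, ey, eT⟩ :=
    data D hl hD x y hx hy
  have gq : (g : ℚ) ≠ 0 := by exact_mod_cast g0.ne'
  have mq : (m : ℚ) ≠ 0 := by exact_mod_cast m0.ne'
  have e := form D (j + 1) hk N (g * m) X Y (by positivity)
  rw [← ex, ← ey, ← eT] at e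
  change pairPoly (D + 1) (x, y) = _ at e
  set F := pairPoly (D + 1) (x, y)
  set E := j + 1 + D + 1 with hE
  set P : ℤ := N ^ (D + 1) + (g * m) ^ (j + 1) * (N * X + (g * m) ^ D * Y) with hP
  have e1 : F.num * (g ^ E * m ^ E) = P * F.den := by
    have hq : (F.den : ℚ) ≠ 0 := by exact_mod_cast F.den_nz
    rw [← Rat.num_div_den F, div_eq_div_iff hq (by positivity), mul_pow _ _ E] at e
    rw [hP]
    exact_mod_cast e
  intro γ hγ vγ
  have hγ' : (γ : ℤ) ∣ (F.den : ℤ) := Int.natCast_dvd_natCast.2 hγ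
  have cγ : IsCoprime (γ : ℤ) (m ^ E) := (cop_of_primes fun p hp h1 h2 => by
    have := vγ p hp (Int.natCast_dvd_natCast.1 h1)
    have := im p hp h2
    omega).pow_right
  have q0 : (0 : ℤ) < F.den := by exact_mod_cast F.den_pos
  have d1 : (F.den : ℤ) ∣ g ^ E * m ^ E :=
    (ratcop F).symm.dvd_of_dvd_mul_left (Dvd.intro_left _ e1.symm)
  have d2 : (γ : ℤ) ≤ g ^ E :=
    Int.le_of_dvd (by positivity) (cγ.dvd_of_dvd_mul_right (hγ'.trans d1))
  have cP : IsCoprime (m ^ E) P := by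
    have : P = N ^ (D + 1) + m * (g * (g * m) ^ j * (N * X + (g * m) ^ D * Y)) := by
      rw [hP]
      ring
    rw [this]
    exact ((c.pow_left.add_mul_left_left _).symm).pow_left
  have d3 : m ^ E ∣ (F.den : ℤ) :=
    cP.dvd_of_dvd_mul_left (e1 ▸ (Dvd.intro_left _ rfl).mul_left _)
  have d4 : γ * m ^ E ≤ (F.den : ℤ) := Int.le_of_dvd q0 (cγ.mul_dvd hγ' d3)
  have s0 := mul_pos g0 m0
  have G0 : 0 < G := s0.trans_le bs
  have N0 : 0 < N := lt_of_lt_of_le (by positivity) bN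
  have b1 := br_bound D N _ X Y G s0 bX bY bs bN
  have b2 : (3 * G ^ D) ^ D ≤ N ^ D := pow_le_pow_left₀ (by positivity) bN D
  have b3 : (9 : ℤ) ≤ 3 ^ D := by
    calc (9 : ℤ) = 3 ^ 2 := by norm_num
      _ ≤ 3 ^ D := pow_le_pow_right₀ (by norm_num) (by omega)
  have b4 : 9 * (G ^ (j + 1) * G) ≤ N ^ D := by
    refine le_trans ?_ b2
    rw [mul_pow, ← pow_mul, hk, ← pow_succ]
    gcongr
  have b5 : (g * m) ^ (j + 1) ≤ G ^ (j + 1) := pow_le_pow_left₀ s0.le bs _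
  have b6 : -((g * m) ^ (j + 1) * (N * X + (g * m) ^ D * Y)) ≤ G ^ (j + 1) * (2 * N * G) := by
    have := (abs_le.1 b1).1
    calc -((g * m) ^ (j + 1) * (N * X + (g * m) ^ D * Y))
        = (g * m) ^ (j + 1) * (-(N * X + (g * m) ^ D * Y)) := by ring
      _ ≤ (g * m) ^ (j + 1) * (2 * N * G) := by gcongr; linarith
      _ ≤ G ^ (j + 1) * (2 * N * G) := by gcongr
  have b7 : G ^ E ≤ P := by
    have t1 : 9 * (G ^ (j + 1) * G) * N ≤ N ^ D * N := by gcongr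
    have t2 : G ^ (j + 1) * G * G ^ D ≤ G ^ (j + 1) * G * N := by
      have : 0 < G ^ D := by positivity
      gcongr
      linarith
    have t3 : 0 < G ^ (j + 1) * G * N := by positivity
    have t4 : G ^ E = G ^ (j + 1) * G * G ^ D := by rw [hE]; ring
    rw [hP, t4, pow_succ N D]
    linarith
  have b8 : g ^ E * g ^ E ≤ P := by
    refine le_trans ?_ b7
    rw [← mul_pow, ← sq]
    exact pow_le_pow_left₀ (by positivity) bg E
  have γ0 : (0 : ℤ) ≤ γ := Int.natCast_nonneg γ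
  have b9 : (γ * γ : ℤ) * (g ^ E * m ^ E) ≤ F.num * (g ^ E * m ^ E) := by
    rw [e1]
    calc (γ * γ : ℤ) * (g ^ E * m ^ E) = (γ * g ^ E) * (γ * m ^ E) := by ring
      _ ≤ (g ^ E * g ^ E) * F.den := by gcongr
      _ ≤ P * F.den := by gcongr
  have b10 : (γ * γ : ℤ) ≤ F.num := le_of_mul_le_mul_right b9 (by positivity)
  have : ((γ ^ 2 : ℕ) : ℤ) ≤ (ht F : ℕ) := by
    rw [ht_cast]
    push_cast
    rw [sq]
    exact b10.trans ((le_abs_self _).trans (le_max_left _ _))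
  exact_mod_cast this

end Pool.Agent.MP_adc87d_lc.BI
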